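import Pool.Agent.Q256.FX.Det
import Pool.Agent.Q256.FX.Few
import Pool.Agent.Q175.FX.Hen
import Pool.Agent.Q175.FX.Lg
import Pool.Agent.Q175.FX.Alg
import Pool.Agent.Q175.FX.Inter
import Pool.Agent.Q175.FX.Conv
import Pool.Agent.Q175.FX.Bakern
import Pool.Agent.Q251.FX.Cls
import Pool.Agent.Q251.FX.Prim
import Pool.Agent.Q20.FX.Conj
import Pool.Agent.Q14.FX.Ht
import Pool.Agent.Q14.FX.Cnt
import Pool.Agent.Q210.FX.Main
import Pool.Agent.Q190.FX.Baker
import Pool.Agent.H951R3.PB.G5
import Pool.Agent.H951R3.PB.F5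
import Pool.Agent.TH450.PC.F4

/-!
# MP_c076ed_nt: few exceptional conjugacy classes in the Morton-Silverman conjecture over `ℚ`

For every `d ≥ 2` and every `ε > 0` there are `N` and `C` such that, for every `X ≥ 1`, all
endomorphisms of the projective line of degree `d` given by integral coefficients of absolute value
at most `X`, except those in at most `C X ^ ε` conjugacy classes under `PGL₂(ℚ)`, have at most `N`
rational preperiodic points, and every other rational point has canonical height at least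
`log X / N`.

Proof. (1) Suppose not. Then there are `X_N → ∞` and sets `𝒢_N` of pairwise not conjugate maps of
height at most `X_N`, with `#𝒢_N ^ a > N X_N`, each with a rational point whose first `N` iterates
are distinct and which has canonical height at most `log X_N / N`; so the first iterates have height
at most `X_N ^ A`, `A` depending only on `d`. (2) In an ultraproduct take a generic point `s*` of
these families of maps (with points) whose ideal over the field `k` of nonstandard rational numbers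
of polynomially bounded height (with respect to `X_N`) is as large as possible. Let `K = k(s*)`.
The determinant method modulo a power of one prime `q`, in the residue classes where things are
unramified, shows: every germ of a function in `K` whose values have height at most `X_N ^ A` has
degree at most `b(A)` over a transcendence basis of `K / k` (otherwise its values would lie on a
hypersurface of degree `b(A)` for a large part of the points, and the ideal would not be maximal).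
(3) So the generic map `f*` over `K` has an infinite orbit of points of bounded height. Baker's
theorem over function fields shows that the cross ratios of the points of this orbit are
algebraic over `k`, thus germs of functions of `N`, and then `f*` is conjugate over `K` to a map over
the constants; so two different members of `𝒢_N` are conjugate over `ℚ`, a contradiction.
-/

set_option autoImplicit false

open Filter Topology

namespace Pool.Agent.Results.MP_c076ed_nt.FewExceptionalClasses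

/-- The map `x ↦ (F 0 (x), F 1 (x))` of the plane over a field `K` of characteristic zero given by a
pair of binary forms with integral coefficients. -/
noncomputable def act {K : Type} [Field K] (F : Fin 2 → MvPolynomial (Fin 2) ℤ)
    (x : Fin 2 → K) : Fin 2 → K := fun i => MvPolynomial.aeval x (F i)

/-- The endomorphisms `[F 0 : F 1]` of the projective line of degree `d` given by two binary forms of
degree `d` with integral coefficients of absolute value at most `X`, without common zero. -/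
def Maps (d X : ℕ) : Set (Fin 2 → MvPolynomial (Fin 2) ℤ) :=
  {F | (∀ i, (F i).IsHomogeneous d) ∧ (∀ i μ, |(F i).coeff μ| ≤ (X : ℤ)) ∧
    ∀ x : Fin 2 → ℂ, act F x = 0 → x = 0}

/-- `[F 0 : F 1]` and `[G 0 : G 1]` are conjugate by an element of `PGL₂(ℚ)`. -/
def Conj (F G : Fin 2 → MvPolynomial (Fin 2) ℤ) : Prop :=
  ∃ (A : Matrix (Fin 2) (Fin 2) ℚ) (c : ℚ), A.det ≠ 0 ∧ c ≠ 0 ∧
    ∀ x : Fin 2 → ℚ, act F (A.mulVec x) = c • A.mulVec (act G x)

/-- The point of the projective line with homogeneous coordinates `x`. -/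
def pt (x : Fin 2 → ℚ) : Submodule ℚ (Fin 2 → ℚ) := Submodule.span ℚ {x}

/-- The point with homogeneous coordinates `x` is preperiodic for `[F 0 : F 1]`: the set of its
iterates is finite. -/
def IsPre (F : Fin 2 → MvPolynomial (Fin 2) ℤ) (x : Fin 2 → ℚ) : Prop :=
  (Set.range fun n : ℕ => pt ((act F)^[n] x)).Finite

open Pool.Agent.H951R3.PB (wd ev rs dh)
open Pool.Agent.Q256.FX

theorem few' : S_few :=
  few (abs_of_main (Pool.Agent.Q210.FX.main (Pool.Agent.Q251.FX.cls Pool.Agent.Q256.FX.DT.det Pool.Agent.Q175.FX.hen)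
    Pool.Agent.Q175.FX.lg)) Pool.Agent.Q175.FX.alg'
    (Pool.Agent.Q175.FX.bakern Pool.Agent.Q190.FX.baker Pool.Agent.Q175.FX.inter
      Pool.Agent.Q175.FX.conv) Pool.Agent.Q20.FX.conj' Pool.Agent.Q14.FX.ht Pool.Agent.Q251.FX.prim

theorem ev_fq (F : Fin 2 → MvPolynomial (Fin 2) ℤ) : ev (fq F) = act F := by
  funext x i
  simp only [ev, fq, act, MvPolynomial.eval_map]
  rfl

theorem rs_ne {d : ℕ} (hd : 1 ≤ d) {F : Fin 2 → MvPolynomial (Fin 2) ℤ}
    (hF : ∀ i, (F i).IsHomogeneous d) (h0 : ∀ x : Fin 2 → ℂ, act F x = 0 → x = 0) :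
    rs (fq F) d ≠ 0 := by
  refine Pool.Agent.TH450.PC.rs_ne_of_noZero hd (fun i => (hF i).map _) fun x hx => ?_
  have hQ : Algebra.IsAlgebraic ℚ (AlgebraicClosure ℚ) := AlgebraicClosure.isAlgebraic ℚ
  let σ : AlgebraicClosure ℚ →+* ℂ :=
    (IsAlgClosed.lift : AlgebraicClosure ℚ →ₐ[ℚ] ℂ).toRingHom
  have h1 : act F (fun i => σ (x i)) = 0 := by
    funext i
    have h2 := congrArg σ (hx i)
    rw [map_zero] at h2
    rw [Pi.zero_apply, ← h2]
    simp only [act, fq]
    rw [MvPolynomial.aeval_def, MvPolynomial.aeval_def, MvPolynomial.eval₂_map,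
      ← MvPolynomial.coe_eval₂Hom, ← MvPolynomial.coe_eval₂Hom, ← RingHom.comp_apply]
    congr 1
    apply MvPolynomial.ringHom_ext
    · intro r
      simp
    · intro i
      simp
  have h3 := h0 _ h1
  funext i
  have h4 := congrFun h3 i
  exact (map_eq_zero σ).1 h4

theorem conj_of {F G : Fin 2 → MvPolynomial (Fin 2) ℤ} (h : CJ (fq F) (fq G)) : Conj F G := by
  obtain ⟨A, c, hA, hc, h⟩ := h
  exact ⟨A, c, hA, hc, fun x => by rw [← ev_fq, ← ev_fq]; exact h x⟩

theorem Conj.rfl' (F : Fin 2 → MvPolynomial (Fin 2) ℤ) : Conj F F :=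
  ⟨1, 1, by simp, one_ne_zero, fun x => by simp⟩

theorem mem_maps {d X : ℕ} (hd : 1 ≤ d) {F : Fin 2 → MvPolynomial (Fin 2) ℤ} (h : F ∈ Maps d X) :
    F ∈ MapsN d X := by
  obtain ⟨h1, h2, h3⟩ := h
  refine ⟨h1, fun i μ => ?_, rs_ne hd h1 h3⟩
  have := h2 i μ
  rw [Int.abs_eq_natAbs] at this
  exact_mod_cast this

theorem mapsN_mem {d X : ℕ} {F : Fin 2 → MvPolynomial (Fin 2) ℤ} (hd : 1 ≤ d)
    (h : F ∈ MapsN d X) : F ∈ Maps d X := by
  obtain ⟨h1, h2, h3⟩ := h
  refine ⟨h1, fun i μ => ?_, fun x hx => ?_⟩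
  · rw [Int.abs_eq_natAbs]
    exact_mod_cast h2 i μ
  · let g : Fin 2 → MvPolynomial (Fin 2) ℂ := fun i => (fq F i).map (algebraMap ℚ ℂ)
    have hg : ∀ i, (g i).IsHomogeneous d := fun i => ((h1 i).map _).map _
    have h4 : rs g d = algebraMap ℚ ℂ (rs (fq F) d) :=
      Pool.Agent.H951R3.PB.rs_map _ (fq F) d
    have h5 : rs g d ≠ 0 := by
      rw [h4]
      exact (map_ne_zero _).2 h3
    refine (Pool.Agent.H951R3.PB.rs_ne_zero_iff (f := g) hd hg).1 h5 x ?_
    rw [← hx]
    funext i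
    simp only [ev, g, fq, act, MvPolynomial.eval_map, MvPolynomial.eval₂_map,
      MvPolynomial.aeval_def]
    congr 1

theorem wd_zero_iff {x y : Fin 2 → ℚ} (hx : x ≠ 0) (hy : y ≠ 0) :
    wd x y = 0 ↔ ∃ c : ℚ, c ≠ 0 ∧ y = c • x := by
  constructor
  · intro h
    simp only [wd] at h
    obtain ⟨i, hi⟩ : ∃ i, x i ≠ 0 := by
      by_contra hcon
      push Not at hcon
      exact hx (funext hcon)
    have hy' : y = (y i / x i) • x := by
      funext j
      simp only [Pi.smul_apply, smul_eq_mul]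
      fin_cases i <;> fin_cases j <;> simp at hi ⊢ <;> field_simp <;> linarith
    refine ⟨y i / x i, ?_, hy'⟩
    intro h0
    rw [h0, zero_smul] at hy'
    exact hy hy'
  · rintro ⟨c, -, rfl⟩
    simp only [wd, Pi.smul_apply, smul_eq_mul]
    ring

theorem iter_ne {d : ℕ} (hd : 1 ≤ d) {F : Fin 2 → MvPolynomial (Fin 2) ℤ}
    (hF : ∀ i, (F i).IsHomogeneous d) (h0 : rs (fq F) d ≠ 0) {x : Fin 2 → ℚ} (hx : x ≠ 0) (n : ℕ) :
    (ev (fq F))^[n] x ≠ 0 := by
  classical
  have w₀ : AbsoluteValue (AlgebraicClosure ℚ) ℝ := AbsoluteValue.trivial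
  exact Pool.Agent.H951R3.PB.F4_iter_ne hd (fun i => (hF i).map _) h0
    w₀ hx n

theorem pt_smul (c : ℚ) (hc : c ≠ 0) (x : Fin 2 → ℚ) : pt (c • x) = pt x :=
  Submodule.span_singleton_smul_eq (IsUnit.mk0 c hc) x

theorem wd_zero_of_pt {x y : Fin 2 → ℚ} (h : pt x = pt y) : wd x y = 0 := by
  have h1 : y ∈ pt x := by
    rw [h]
    exact Submodule.mem_span_singleton_self y
  obtain ⟨c, rfl⟩ := Submodule.mem_span_singleton.1 h1
  simp only [wd, Pi.smul_apply, smul_eq_mul]
  ring

theorem pt_of_wd {x y : Fin 2 → ℚ} (hx : x ≠ 0) (hy : y ≠ 0) (h : wd x y = 0) : pt x = pt y := by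
  obtain ⟨c, hc, rfl⟩ := (wd_zero_iff hx hy).1 h
  rw [pt_smul c hc]

/-- a point with two equal iterates is preperiodic -/
theorem isPre_of {d : ℕ} (hd : 1 ≤ d) {F : Fin 2 → MvPolynomial (Fin 2) ℤ}
    (hF : ∀ i, (F i).IsHomogeneous d) (h0 : rs (fq F) d ≠ 0) {x : Fin 2 → ℚ} (hx : x ≠ 0)
    {i j : ℕ} (hij : i < j) (h : wd ((ev (fq F))^[i] x) ((ev (fq F))^[j] x) = 0) :
    IsPre F x := by
  have hfh : ∀ i, (fq F i).IsHomogeneous d := fun i => (hF i).map _
  have key : ∀ n : ℕ, ∃ l < j, pt ((act F)^[n] x) = pt ((act F)^[l] x) := by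
    obtain ⟨c, hc, hcx⟩ := (wd_zero_iff (iter_ne hd hF h0 hx i) (iter_ne hd hF h0 hx j)).1 h
    have key' : ∀ n : ℕ, ∃ l < j, ∃ a : ℚ, a ≠ 0 ∧
        (ev (fq F))^[n] x = a • (ev (fq F))^[l] x := by
      intro n
      induction n with
      | zero => exact ⟨0, by omega, 1, one_ne_zero, by simp⟩
      | succ n ih =>
        obtain ⟨l, hl, a, ha, hn⟩ := ih
        have h1 : (ev (fq F))^[n + 1] x = a ^ d • (ev (fq F))^[l + 1] x := by
          rw [Function.iterate_succ_apply', hn, Pool.Agent.H951R3.PB.ev_smul hfh,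
            Function.iterate_succ_apply']
        by_cases hlj : l + 1 < j
        · exact ⟨l + 1, hlj, a ^ d, pow_ne_zero _ ha, h1⟩
        · have hl' : l + 1 = j := by omega
          exact ⟨i, hij, a ^ d * c, mul_ne_zero (pow_ne_zero _ ha) hc, by
            rw [h1, hl', hcx, mul_smul]⟩
    intro n
    obtain ⟨l, hl, a, ha, hn⟩ := key' n
    refine ⟨l, hl, ?_⟩
    rw [← ev_fq, hn, pt_smul a ha]
  refine Set.Finite.subset ((Finset.range j).finite_toSet.image fun l => pt ((act F)^[l] x)) ?_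
  rintro _ ⟨n, rfl⟩
  obtain ⟨l, hl, hn⟩ := key n
  exact ⟨l, by simpa using hl, hn.symm⟩

/-- the canonical height of a preperiodic point is zero -/
theorem height_of_isPre {d : ℕ} (hd : 2 ≤ d) {F : Fin 2 → MvPolynomial (Fin 2) ℤ}
    (hF : ∀ i, (F i).IsHomogeneous d) (h0 : rs (fq F) d ≠ 0) {x : Fin 2 → ℚ} (hx : x ≠ 0)
    (h : IsPre F x) : Pool.Agent.H951R3.PB.hcan d (fq F) x = 0 := by
  have hfh : ∀ i, (fq F i).IsHomogeneous d := fun i => (hF i).map _
  obtain ⟨i, j, hij, hpt⟩ : ∃ i j : ℕ, i < j ∧ pt ((act F)^[i] x) = pt ((act F)^[j] x) := by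
    by_contra hcon
    push Not at hcon
    have hinj : Function.Injective fun n : ℕ => pt ((act F)^[n] x) := by
      intro a b hab
      by_contra hne
      rcases lt_or_gt_of_ne hne with hlt | hlt
      · exact hcon a b hlt hab
      · exact hcon b a hlt hab.symm
    exact Set.infinite_range_of_injective hinj h
  rw [← ev_fq] at hpt
  have h1 := wd_zero_of_pt hpt
  obtain ⟨c, hc, hcx⟩ := (wd_zero_iff (iter_ne (by omega) hF h0 hx i)
    (iter_ne (by omega) hF h0 hx j)).1 h1
  exact Pool.Agent.H951R3.PB.hcan_pre hd hfh h0 hx ⟨i, j, hij, c, hc, hcx⟩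

theorem height_tendsto {d : ℕ} (hd : 2 ≤ d) {F : Fin 2 → MvPolynomial (Fin 2) ℤ}
    (hF : ∀ i, (F i).IsHomogeneous d) (h0 : rs (fq F) d ≠ 0) {x : Fin 2 → ℚ} (hx : x ≠ 0) :
    Tendsto (fun j : ℕ => Real.log (Height.mulHeight ((ev (fq F))^[j] x)) / (d : ℝ) ^ j) atTop
      (𝓝 (Pool.Agent.H951R3.PB.hcan d (fq F) x)) := by
  have h1 := Pool.Agent.H951R3.PB.hcan_tendsto hd (fun i => (hF i).map _) h0 hx
  simp only [Height.logHeight_eq_log_mulHeight] at h1
  exact h1

/-- outside the exceptional classes -/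
theorem good_of_not_exc {d : ℕ} (hd : 2 ≤ d) {N B X : ℕ} (hN : 1 ≤ N) (hX : 2 ≤ X)
    (hB : ∀ f : Fin 2 → MvPolynomial (Fin 2) ℚ,
      (∀ i, (f i).IsHomogeneous d) → rs f d ≠ 0 → ∀ S : Finset (Fin 2 → ℚ), (∀ v ∈ S, v ≠ 0) →
      (∀ v ∈ S, ∀ w ∈ S, v ≠ w → wd v w ≠ 0) →
      (∀ v ∈ S, ∃ i j : ℕ, i < j ∧ j ≤ N ∧ wd ((ev f)^[i] v) ((ev f)^[j] v) = 0) → S.card ≤ B)
    {F : Fin 2 → MvPolynomial (Fin 2) ℤ} (hF : F ∈ MapsN d X) (hE : ¬ Exc d N X F) :
    {P | ∃ x : Fin 2 → ℚ, x ≠ 0 ∧ P = pt x ∧ IsPre F x}.encard ≤ B ∧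
      ∀ x : Fin 2 → ℚ, x ≠ 0 → ¬ IsPre F x → ∃ h : ℝ, 0 ≤ h ∧ Real.log X ≤ N * h ∧
        Tendsto (fun n : ℕ => Real.log (Height.mulHeight ((act F)^[n] x)) / (d : ℝ) ^ n) atTop
          (𝓝 h) := by
  classical
  obtain ⟨hh, -, h0⟩ := hF
  have hlogX : 0 < Real.log X := Real.log_pos (by exact_mod_cast (by omega : 1 < X))
  have hN0 : (0 : ℝ) < N := by exact_mod_cast hN
  have hdich : ∀ x : Fin 2 → ℚ, x ≠ 0 →
      (∃ i j, i < j ∧ j ≤ N ∧ wd ((ev (fq F))^[i] x) ((ev (fq F))^[j] x) = 0) ∨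
      Real.log X / N < Pool.Agent.H951R3.PB.hcan d (fq F) x := by
    intro x hx
    by_contra hcon
    push Not at hcon
    exact hE ⟨x, hx, hcon.1, _, hcon.2, height_tendsto hd hh h0 hx⟩
  have hpre : ∀ x : Fin 2 → ℚ, x ≠ 0 → IsPre F x →
      ∃ i j, i < j ∧ j ≤ N ∧ wd ((ev (fq F))^[i] x) ((ev (fq F))^[j] x) = 0 := by
    intro x hx hp
    refine (hdich x hx).resolve_right ?_
    rw [height_of_isPre hd hh h0 hx hp, not_lt]
    positivity
  constructor
  · by_contra hcon
    push Not at hcon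
    have h1 : ((B + 1 : ℕ) : ℕ∞) ≤
        {P | ∃ x : Fin 2 → ℚ, x ≠ 0 ∧ P = pt x ∧ IsPre F x}.encard := by
      rw [Nat.cast_add, Nat.cast_one]
      exact Order.add_one_le_of_lt hcon
    obtain ⟨t, ht, htc⟩ := Set.exists_subset_encard_eq h1
    have hfin : t.Finite := Set.finite_of_encard_eq_coe htc
    have ht' : ∀ P : Submodule ℚ (Fin 2 → ℚ), ∃ x : Fin 2 → ℚ, P ∈ t →
        x ≠ 0 ∧ P = pt x ∧ IsPre F x := by
      intro P
      by_cases hP : P ∈ t
      · obtain ⟨x, hx⟩ := ht hP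
        exact ⟨x, fun _ => hx⟩
      · exact ⟨0, fun h => absurd h hP⟩
    choose x hx using ht'
    have hx0 : ∀ {P}, P ∈ t → x P ≠ 0 := fun hP => (hx _ hP).1
    have hxP : ∀ {P}, P ∈ t → P = pt (x P) := fun hP => (hx _ hP).2.1
    have hxpre : ∀ {P}, P ∈ t → IsPre F (x P) := fun hP => (hx _ hP).2.2
    set S : Finset (Fin 2 → ℚ) := hfin.toFinset.image x with hS
    have hinj : Set.InjOn x (hfin.toFinset : Set (Submodule ℚ (Fin 2 → ℚ))) := by
      intro P hP Q hQ hPQ
      rw [Set.Finite.coe_toFinset] at hP hQ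
      rw [hxP hP, hxP hQ, hPQ]
    have hcardS : S.card = B + 1 := by
      rw [hS, Finset.card_image_of_injOn hinj, ← Set.ncard_eq_toFinset_card t hfin, Set.ncard, htc]
      rfl
    have hmem : ∀ v ∈ S, ∃ P ∈ t, v = x P := by
      intro v hv
      obtain ⟨P, hP, rfl⟩ := Finset.mem_image.1 hv
      exact ⟨P, by simpa using hP, rfl⟩
    have h2 := hB (fq F) (fun i => (hh i).map _) h0 S (by
      intro v hv
      obtain ⟨P, hP, rfl⟩ := hmem v hv
      exact hx0 hP) (by
      intro v hv v' hv' hne h3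
      obtain ⟨P, hP, rfl⟩ := hmem v hv
      obtain ⟨Q, hQ, rfl⟩ := hmem v' hv'
      apply hne
      have h4 := pt_of_wd (hx0 hP) (hx0 hQ) h3
      rw [← hxP hP, ← hxP hQ] at h4
      rw [h4]) (by
      intro v hv
      obtain ⟨P, hP, rfl⟩ := hmem v hv
      exact hpre _ (hx0 hP) (hxpre hP))
    omega
  · intro x hx hp
    refine ⟨Pool.Agent.H951R3.PB.hcan d (fq F) x,
      Pool.Agent.H951R3.PB.hcan_nonneg hd (fun i => (hh i).map _) h0 hx, ?_, ?_⟩
    · rcases hdich x hx with ⟨i, j, hij, -, h3⟩ | h3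
      · exact absurd (isPre_of (by omega) hh h0 hx hij h3) hp
      · rw [div_lt_iff₀ hN0] at h3
        linarith
    · rw [← ev_fq]
      exact height_tendsto hd hh h0 hx

/-- **Few exceptional conjugacy classes.** For every `d ≥ 2` and every `ε > 0` there are `N` and `C`
such that for every `X ≥ 1` there are at most `C X ^ ε` endomorphisms `G` of the projective line of
degree `d` given by integral coefficients of absolute value at most `X`, such that every
endomorphism `F` of degree `d` given by integral coefficients of absolute value at most `X` either is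
conjugate under `PGL₂(ℚ)` to one of the `G`, or has at most `N` rational preperiodic points, while
the canonical height (the limit of `log H(F^n(x)) / d ^ n`) of every other rational point is at least
`log X / N`. -/
theorem result (d : ℕ) (hd : 2 ≤ d) (ε : ℝ) (hε : 0 < ε) :
    ∃ (N : ℕ) (C : ℝ), ∀ X : ℕ, 1 ≤ X →
      ∃ 𝒢 : Finset (Fin 2 → MvPolynomial (Fin 2) ℤ), (𝒢 : Set _) ⊆ Maps d X ∧
        (𝒢.card : ℝ) ≤ C * (X : ℝ) ^ ε ∧
        ∀ F ∈ Maps d X, (∃ G ∈ 𝒢, Conj F G) ∨
          ({P | ∃ x : Fin 2 → ℚ, x ≠ 0 ∧ P = pt x ∧ IsPre F x}.encard ≤ N ∧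
          ∀ x : Fin 2 → ℚ, x ≠ 0 → ¬ IsPre F x → ∃ h : ℝ, Real.log X ≤ N * h ∧
            Tendsto (fun n : ℕ => Real.log (Height.mulHeight ((act F)^[n] x)) / (d : ℝ) ^ n) atTop
              (𝓝 h)) := by
  classical
  obtain ⟨a, ha⟩ := exists_nat_gt (1 / ε)
  have ha1 : 1 ≤ a := by
    have : (0 : ℝ) < a := lt_trans (by positivity) ha
    exact_mod_cast this
  obtain ⟨N₀, hN₀, hfew⟩ := few' d hd a ha1
  obtain ⟨B, hB⟩ := Pool.Agent.Q14.FX.cnt d N₀ hd
  refine ⟨max B N₀, max (N₀ : ℝ) ((finite_MapsN d 1).toFinset.card : ℝ), fun X hX => ?_⟩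
  rcases Nat.lt_or_ge X 2 with hX1 | hX2
  · obtain rfl : X = 1 := by omega
    refine ⟨(finite_MapsN d 1).toFinset, ?_, ?_, ?_⟩
    · intro F hF
      rw [Set.Finite.coe_toFinset] at hF
      exact mapsN_mem (by omega) hF
    · simp
    · intro F hF
      exact Or.inl ⟨F, (Set.Finite.mem_toFinset _).2 (mem_maps (by omega) hF), Conj.rfl' F⟩
  · obtain ⟨𝒢, h1, h2, h3⟩ := hfew X hX2
    refine ⟨𝒢, fun F hF => mapsN_mem (by omega) (h1 hF), ?_, ?_⟩
    · have hX0 : (1 : ℝ) ≤ X := by exact_mod_cast hX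
      have hN1 : (1 : ℝ) ≤ N₀ := by exact_mod_cast hN₀
      have h4 : ((𝒢.card : ℝ)) ^ a ≤ (N₀ * (X : ℝ) ^ ε) ^ a := by
        calc ((𝒢.card : ℝ)) ^ a ≤ N₀ * X := by exact_mod_cast h2
          _ ≤ (N₀ : ℝ) ^ a * ((X : ℝ) ^ ε) ^ a := by
            gcongr
            · exact le_self_pow₀ hN1 (by omega)
            · rw [← Real.rpow_natCast, ← Real.rpow_mul (by positivity)]
              calc (X : ℝ) = (X : ℝ) ^ (1 : ℝ) := (Real.rpow_one _).symm
                _ ≤ _ := by
                  apply Real.rpow_le_rpow_of_exponent_le hX0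
                  rw [div_lt_iff₀ hε] at ha
                  linarith
          _ = _ := (mul_pow _ _ _).symm
      have h5 : (𝒢.card : ℝ) ≤ N₀ * (X : ℝ) ^ ε :=
        le_of_pow_le_pow_left₀ (by omega) (by positivity) h4
      refine h5.trans ?_
      gcongr
      exact le_max_left _ _
    · intro F hF
      have hF' := mem_maps (by omega) hF
      by_cases hE : Exc d N₀ X F
      · obtain ⟨G, hG, hFG⟩ := h3 F hF' hE
        exact Or.inl ⟨G, hG, conj_of hFG⟩
      · right
        obtain ⟨h4, h5⟩ := good_of_not_exc hd hN₀ hX2 hB hF' hE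
        refine ⟨h4.trans (by exact_mod_cast le_max_left _ _), fun x hx hp => ?_⟩
        obtain ⟨h, hh0, h6, h7⟩ := h5 x hx hp
        refine ⟨h, h6.trans ?_, h7⟩
        gcongr
        exact le_max_right _ _

end Pool.Agent.Results.MP_c076ed_nt.FewExceptionalClasses
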