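import Pool.Agent.Q138.PS.WN
import Pool.Agent.Q138.AI.Rc076ed

/-!
# Uniform boundedness of preperiodic points for rational maps with moduli close to given points

Endomorphisms `F` of degree `d ≥ 2` of the projective line over `ℚ`, given by integral coefficients of absolute value at most `X`.
Let `Y` be a metric space and let `p` be any map from these endomorphisms to `Y` with `p F = p G` if `F` and `G` are conjugate over `ℚ`:
for instance real, complex or `ℓ`-adic invariants of `F`, as the coordinates of a point of the moduli space of the maps of degree `d`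
or the symmetric functions of the multipliers.

There is a set `Z ⊆ Y` of Hausdorff dimension ZERO such that for every `z ∈ Y` outside `Z`, every `θ > 0` and every `D` there is `N`
such that for all `X ≥ 1` ALL endomorphisms `F` with coefficients at most `X` and `dist (p F, z) ≤ D X ^ (-θ)` have at most `N`
preperiodic points in `ℙ¹(ℚ)`; and if `X ≥ N` then every other rational point has canonical height at least `log X / N`.
-/

set_option autoImplicit false

namespace Pool.Agent.Results.MP_c076ed_nt.ModuliNearGivenPoints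

open Filter Topology Pool.Agent.Q138.PS Pool.Agent.Q138.AI.Rc076ed
open Pool.Agent.H951R3.PB (wd ev rs)
open Pool.Agent.Q256.FX

/-- The preperiodic points of `F` in `ℙ¹(ℚ)`. -/
def prePoints (F : Fin 2 → MvPolynomial (Fin 2) ℤ) : Set (Submodule ℚ (Fin 2 → ℚ)) :=
  {P | ∃ x : Fin 2 → ℚ, x ≠ 0 ∧ P = pt x ∧ IsPre F x}

/-- Every rational point which is not preperiodic has canonical height (the limit of `log H(F^n(x)) / d ^ n`) at least `t / N`. -/
def LangBound (d N : ℕ) (F : Fin 2 → MvPolynomial (Fin 2) ℤ) (t : ℝ) : Prop :=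
  ∀ x : Fin 2 → ℚ, x ≠ 0 → ¬ IsPre F x → ∃ h : ℝ, t ≤ N * h ∧
    Tendsto (fun n : ℕ => Real.log (Height.mulHeight ((act F)^[n] x)) / (d : ℝ) ^ n) atTop (𝓝 h)

/-- Northcott: a map has finitely many preperiodic points -/
theorem finite_pre {d X : ℕ} (hd : 2 ≤ d) {F : Fin 2 → MvPolynomial (Fin 2) ℤ} (hF : F ∈ Maps d X) :
    (prePoints F).Finite := by
  classical
  obtain ⟨A, hA⟩ := Pool.Agent.Q14.FX.ht d hd
  have hF' : F ∈ Maps d (max X 2) := ⟨hF.1, fun i μ => (hF.2.1 i μ).trans (by exact_mod_cast le_max_left _ _), hF.2.2⟩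
  obtain ⟨h1, h2, h3⟩ := mem_maps (by omega) hF'
  set B : ℝ := Real.exp (A * Real.log (max X 2 : ℕ)) with hB
  set M : ℕ := ⌊B⌋₊ with hM
  have hfin : ((Fintype.piFinset fun _ : Fin 2 => Finset.Icc (-(M : ℤ)) M : Finset (Fin 2 → ℤ)) : Set (Fin 2 → ℤ)).Finite :=
    Finset.finite_toSet _
  refine (hfin.image fun u : Fin 2 → ℤ => pt (fun i => (u i : ℚ))).subset ?_
  rintro P ⟨x, hx, rfl, hp⟩
  have h4 := hA (max X 2) (le_max_right _ _) F h1 h2 h3 x hx 0 (by
    have h5 := height_tendsto hd h1 h3 hx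
    rwa [height_of_isPre hd h1 h3 hx hp] at h5)
  obtain ⟨u, c, hc, hu, -, h6, -⟩ := Pool.Agent.Q251.FX.prim x hx
  refine ⟨u, ?_, ?_⟩
  · have h7 : ((max (u 0).natAbs (u 1).natAbs : ℕ) : ℝ) ≤ B := by
      rw [← h6, hB]
      have h8 : 0 < Height.mulHeight x := lt_of_lt_of_le one_pos (Height.one_le_mulHeight x)
      rw [← Real.log_le_iff_le_exp h8]
      linarith
    have h9 : max (u 0).natAbs (u 1).natAbs ≤ M := Nat.le_floor h7
    rw [Finset.mem_coe, Fintype.mem_piFinset]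
    intro i
    rw [Finset.mem_Icc]
    have h10 : (u i).natAbs ≤ M := by
      fin_cases i
      · exact (le_max_left _ _).trans h9
      · exact (le_max_right _ _).trans h9
    omega
  · show pt (fun i => (u i : ℚ)) = pt x
    rw [hu, pt_smul c hc]

/-- **Theorem.** -/
theorem result (d : ℕ) (hd : 2 ≤ d) (Y : Type) [MetricSpace Y] [MeasurableSpace Y] [BorelSpace Y]
    (p : (Fin 2 → MvPolynomial (Fin 2) ℤ) → Y)
    (hp : ∀ (X : ℕ) (F G : Fin 2 → MvPolynomial (Fin 2) ℤ), F ∈ Maps d X → G ∈ Maps d X → Conj F G → p F = p G) :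
    ∃ Z : Set Y, dimH Z = 0 ∧ ∀ z, z ∉ Z → ∀ θ D : ℝ, 0 < θ → ∃ N : ℕ, ∀ X : ℕ, 1 ≤ X → ∀ F ∈ Maps d X,
      dist (p F) z ≤ D * (X : ℝ) ^ (-θ) → (prePoints F).encard ≤ N ∧ (N ≤ X → LangBound d N F (Real.log X)) := by
  classical
  obtain ⟨Z, hZ, hz⟩ := zero_eps (A := Fin 2 → MvPolynomial (Fin 2) ℤ) p
    (fun N T => {F | ∃ X : ℕ, (X : ℝ) = T ∧ 1 ≤ X ∧ F ∈ Maps d X ∧ ¬ ((prePoints F).encard ≤ N ∧ LangBound d N F (Real.log X))}) (by
      intro ε hε
      obtain ⟨N, C, h⟩ := Pool.Agent.Q138.AI.Rc076ed.result d hd ε hε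
      have h' : ∀ X : ℕ, ∃ 𝒢 : Finset (Fin 2 → MvPolynomial (Fin 2) ℤ), 1 ≤ X → ((𝒢 : Set _) ⊆ Maps d X ∧
        (𝒢.card : ℝ) ≤ C * (X : ℝ) ^ ε ∧ ∀ F ∈ Maps d X, (∃ G ∈ 𝒢, Conj F G) ∨
          ((prePoints F).encard ≤ N ∧ LangBound d N F (Real.log X))) := by
        intro X
        by_cases hX : 1 ≤ X
        · obtain ⟨𝒢, h1, h2, h3⟩ := h X hX
          exact ⟨𝒢, fun _ => ⟨h1, h2, h3⟩⟩
        · exact ⟨∅, fun h0 => absurd h0 hX⟩
      choose 𝒢 h𝒢 using h'
      refine ⟨N, fun θ hθ => ?_⟩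
      refine (dimH_mono ?_).trans (dimH_map_aux (A := Y) (fun y => y)
        (fun T => {y | ∃ F, (∃ X : ℕ, (X : ℝ) = T ∧ 1 ≤ X ∧ F ∈ Maps d X ∧
          ¬ ((prePoints F).encard ≤ N ∧ LangBound d N F (Real.log X))) ∧ p F = y})
        (fun i => p '' (𝒢 (2 ^ (i + 1)) : Set _)) θ ε (|C| * 2 ^ ε) hθ hε.le ?_ ?_ ?_)
      · intro z hz
        refine Filter.Frequently.mono hz ?_
        rintro T ⟨F, hF, h1⟩
        exact ⟨p F, ⟨F, hF, rfl⟩, h1⟩
      · exact Filter.Eventually.of_forall fun i => (Finset.finite_toSet _).image _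
      · refine Filter.Eventually.of_forall fun i => ?_
        have h1 := (h𝒢 (2 ^ (i + 1)) Nat.one_le_two_pow).2.1
        have h2 : (p '' (𝒢 (2 ^ (i + 1)) : Set (Fin 2 → MvPolynomial (Fin 2) ℤ))).ncard ≤ (𝒢 (2 ^ (i + 1))).card := by
          have := Set.ncard_image_le (f := p) (Finset.finite_toSet (𝒢 (2 ^ (i + 1))))
          rwa [Set.ncard_coe_finset] at this
        have h3 : ((p '' (𝒢 (2 ^ (i + 1)) : Set (Fin 2 → MvPolynomial (Fin 2) ℤ))).ncard : ℝ) ≤ (𝒢 (2 ^ (i + 1))).card := by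
          exact_mod_cast h2
        refine h3.trans (h1.trans ?_)
        push_cast
        rw [pow_succ, Real.mul_rpow (by positivity) (by norm_num)]
        calc C * (((2 : ℝ) ^ i) ^ ε * 2 ^ ε) ≤ |C| * (((2 : ℝ) ^ i) ^ ε * 2 ^ ε) :=
              mul_le_mul_of_nonneg_right (le_abs_self C) (by positivity)
          _ = |C| * 2 ^ ε * ((2 : ℝ) ^ i) ^ ε := by ring
      · refine Filter.Eventually.of_forall fun i => ?_
        rintro T h1 h2 y ⟨F, ⟨X, hX, hX1, hF, hbad⟩, rfl⟩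
        have hXi : X ≤ 2 ^ (i + 1) := by
          rw [← hX] at h2
          exact_mod_cast h2
        have hF' : F ∈ Maps d (2 ^ (i + 1)) := ⟨hF.1, fun j μ => (hF.2.1 j μ).trans (by exact_mod_cast hXi), hF.2.2⟩
        rcases (h𝒢 (2 ^ (i + 1)) Nat.one_le_two_pow).2.2 F hF' with ⟨G, hG, hFG⟩ | ⟨h3, h4⟩
        · exact ⟨G, hG, (hp _ F G hF' ((h𝒢 (2 ^ (i + 1)) Nat.one_le_two_pow).1 hG) hFG).symm⟩
        · exfalso
          apply hbad
          refine ⟨h3, fun x hx hpx => ?_⟩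
          obtain ⟨h, h5, h6⟩ := h4 x hx hpx
          refine ⟨h, le_trans ?_ h5, h6⟩
          apply Real.log_le_log (by exact_mod_cast hX1)
          exact_mod_cast hXi)
  refine ⟨Z, hZ, fun z hzZ θ D hθ => ?_⟩
  obtain ⟨N, hN⟩ := hz z hzZ θ D hθ
  obtain ⟨T, hT⟩ := eventually_atTop.1 hN
  have hgood : ∀ X : ℕ, 1 ≤ X → ⌈T⌉₊ ≤ X → ∀ F ∈ Maps d X, dist (p F) z ≤ D * (X : ℝ) ^ (-θ) →
      (prePoints F).encard ≤ N ∧ LangBound d N F (Real.log X) := by
    intro X hX1 hX F hF hdist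
    by_contra hcon
    exact absurd hdist (not_le.2 (hT X (Nat.ceil_le.1 hX) F ⟨X, rfl, hX1, hF, hcon⟩))
  have hfinM : (Maps d ⌈T⌉₊).Finite := (finite_MapsN d ⌈T⌉₊).subset fun F hF => mem_maps (by omega) hF
  set N' : ℕ := max (max N ⌈T⌉₊) (∑ F ∈ hfinM.toFinset, (prePoints F).ncard) with hN'
  have hNN' : N ≤ N' := (le_max_left _ _).trans (le_max_left _ _)
  have hTN' : ⌈T⌉₊ ≤ N' := (le_max_right _ _).trans (le_max_left _ _)
  refine ⟨N', fun X hX1 F hF hdist => ⟨?_, fun hX => ?_⟩⟩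
  · by_cases hX : ⌈T⌉₊ ≤ X
    · exact (hgood X hX1 hX F hF hdist).1.trans (by exact_mod_cast hNN')
    · push Not at hX
      have hF' : F ∈ Maps d ⌈T⌉₊ := ⟨hF.1, fun j μ => (hF.2.1 j μ).trans (by exact_mod_cast hX.le), hF.2.2⟩
      rw [← (finite_pre hd hF).cast_ncard_eq]
      have h1 : (prePoints F).ncard ≤ ∑ F ∈ hfinM.toFinset, (prePoints F).ncard :=
        Finset.single_le_sum (f := fun F => (prePoints F).ncard) (fun _ _ => Nat.zero_le _)
          ((Set.Finite.mem_toFinset hfinM).2 hF')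
      exact_mod_cast h1.trans (le_max_right _ _)
  · intro x hx hpx
    obtain ⟨h, h1, h2⟩ := (hgood X hX1 (hTN'.trans hX) F hF hdist).2 x hx hpx
    have h0 : 0 ≤ Real.log X := Real.log_nonneg (by exact_mod_cast hX1)
    refine ⟨h, h1.trans ?_, h2⟩
    have hh : 0 ≤ (N : ℝ) * h := h0.trans h1
    rcases Nat.eq_zero_or_pos N with hN0 | hN0
    · -- then `log X = 0`, and `h ≥ 0` as a limit of nonnegative numbers
      have hh0 : 0 ≤ h := ge_of_tendsto' h2 fun n => by
        have : 0 ≤ Real.log (Height.mulHeight ((act F)^[n] x)) := Real.log_nonneg (Height.one_le_mulHeight _)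
        positivity
      rw [hN0, Nat.cast_zero, zero_mul]
      positivity
    · have hh0 : 0 ≤ h := by
        have hN1 : (0 : ℝ) < N := by exact_mod_cast hN0
        exact nonneg_of_mul_nonneg_right hh hN1
      exact mul_le_mul_of_nonneg_right (by exact_mod_cast hNN') hh0

end Pool.Agent.Results.MP_c076ed_nt.ModuliNearGivenPoints
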