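import Pool.Agent.Q138.PS.WN
import Pool.Agent.Q138.PS.VU
import Pool.Agent.Q138.PS.VE
import Pool.Agent.Y673.PP.Fin

/-!
# Uniform boundedness of preperiodic points for the maps `z ^ d + c`, `c` close to given points

Let `K` be a number field. For `c ∈ K` let `Pre (d, c)` be the set of the preperiodic points in `K` of the map `w ↦ w ^ d + c`. It is
an open problem whether the number of its elements is bounded for given `K` and `d`. Let `Y` be a metric space and `p : K → Y` any map,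
for instance the embedding of `K` in a completion, or in a product of completions.

There is a set `Z ⊆ Y` of Hausdorff dimension ZERO such that for every `z ∈ Y` outside `Z`, every `d ≥ 2`, every `θ > 0` and every `D`
there is `N` such that for ALL `c ∈ K` with `dist (p c, z) ≤ D H(c) ^ (-θ)` the map `w ^ d + c` has at most `N` preperiodic points in
`K`. For `K ⊂ ℂ` one set `Z ⊂ ℂ` serves all number fields `K`.

For `K = ℚ` and real `z`, `θ = 2`, this contains all convergents `c` of `z`; for small `θ` there are many more `c`.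
-/

set_option autoImplicit false

namespace Pool.Agent.Results.MP_c076ed_nt.ParametersNearGivenPoints

open Filter Height NumberField Pool.Agent.Q138.PS Pool.Agent.Y673.PP

/-- The elements of `K` with a finite forward orbit under `w ↦ w ^ d + c`. -/
def preperiodic {K : Type} [Field K] (d : ℕ) (c : K) : Set K :=
  {z | (Set.range fun k : ℕ => (fun w : K => w ^ d + c)^[k] z).Finite}

/-- Northcott: for given `c` there are finitely many preperiodic points. -/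
theorem finite_pre {K : Type} [Field K] [NumberField K] {d : ℕ} (hd : 2 ≤ d) (c : K) : (preperiodic d c).Finite := by
  obtain ⟨v, hv⟩ := sz_of_height (le_refl (mulHeight₁ c))
  obtain ⟨C, -, hC⟩ := count_integers K
  set X := mulHeight₁ c with hX
  have hX1 : 1 ≤ X := one_le_mulHeight₁ c
  have hY : 1 ≤ 2 * X ^ (d + 1) := by
    have := one_le_pow₀ (n := d + 1) hX1
    linarith
  refine ((hC _ hY).1.image fun a : 𝓞 K => (a : K) / (v : K)).subset ?_
  intro z hz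
  obtain ⟨a, u, hp⟩ := exists_pt hd hv (prep_of_finite hz)
  have hv0 : (v : K) ≠ 0 := Nat.cast_ne_zero.2 hp.v0
  refine ⟨u 0, fun σ => hp.uY 0 σ, ?_⟩
  simp only
  rw [hp.hu 0]
  have e : orb d c z 0 = z := rfl
  rw [e, mul_div_cancel_left₀ _ hv0]

theorem one_field {K : Type} [Field K] [NumberField K] {Y : Type} [MetricSpace Y] [MeasurableSpace Y] [BorelSpace Y] (p : K → Y)
    (d : ℕ) (hd : 2 ≤ d) : ∃ Z : Set Y, dimH Z = 0 ∧ ∀ z, z ∉ Z → ∀ θ D : ℝ, 0 < θ → ∃ N : ℕ, ∀ c : K,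
      dist (p c) z ≤ D * (mulHeight₁ c) ^ (-θ) → (preperiodic d c).encard ≤ N := by
  obtain ⟨Z, hZ, hz⟩ := fin_eps p (fun N => {c : K | (N : ℕ∞) < (preperiodic d c).encard}) (fun c : K => mulHeight₁ c)
    (fun c => one_le_mulHeight₁ c) (fun ε hε => by
      obtain ⟨N, C, h⟩ := few_params hd (Module.finrank ℚ K) Module.finrank_pos ε hε
      refine ⟨N, C, fun T hT => ?_⟩
      obtain ⟨h1, h2⟩ := h K rfl T hT
      have e : {s | s ∈ {c : K | (N : ℕ∞) < (preperiodic d c).encard} ∧ mulHeight₁ s ≤ T} =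
          {c : K | mulHeight₁ c ≤ T ∧ (N : ℕ∞) < {z : K | (Set.range fun k : ℕ => (fun w : K => w ^ d + c)^[k] z).Finite}.encard} := by
        ext c
        exact and_comm
      rw [e]
      exact ⟨h1, h2⟩)
  refine ⟨Z, hZ, fun z hzZ θ D hθ => ?_⟩
  obtain ⟨N, hN⟩ := hz z hzZ θ D hθ
  refine ⟨N + ∑ c ∈ hN.toFinset, (preperiodic d c).ncard, fun c hc => ?_⟩
  by_cases hb : (N : ℕ∞) < (preperiodic d c).encard
  · have hmem : c ∈ hN.toFinset := (Set.Finite.mem_toFinset _).2 ⟨hb, hc⟩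
    rw [← (finite_pre hd c).cast_ncard_eq]
    have h1 : (preperiodic d c).ncard ≤ ∑ c ∈ hN.toFinset, (preperiodic d c).ncard :=
      Finset.single_le_sum (f := fun c => (preperiodic d c).ncard) (fun _ _ => Nat.zero_le _) hmem
    exact_mod_cast h1.trans (Nat.le_add_left _ _)
  · push Not at hb
    refine hb.trans ?_
    exact_mod_cast Nat.le_add_right _ _

/-- **Theorem.** -/
theorem result :
    (∀ (K : Type) [Field K] [NumberField K] (Y : Type) [MetricSpace Y] [MeasurableSpace Y] [BorelSpace Y] (p : K → Y),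
      ∃ Z : Set Y, dimH Z = 0 ∧ ∀ z, z ∉ Z → ∀ d : ℕ, 2 ≤ d → ∀ θ D : ℝ, 0 < θ → ∃ N : ℕ, ∀ c : K,
        dist (p c) z ≤ D * (mulHeight₁ c) ^ (-θ) → (preperiodic d c).encard ≤ N) ∧
    ∃ Z : Set ℂ, dimH Z = 0 ∧ ∀ z, z ∉ Z → ∀ (K : IntermediateField ℚ ℂ) [NumberField K] (d : ℕ), 2 ≤ d →
      ∀ θ D : ℝ, 0 < θ → ∃ N : ℕ, ∀ c : K, ‖(c : ℂ) - z‖ ≤ D * (mulHeight₁ c) ^ (-θ) → (preperiodic d c).encard ≤ N := by
  have h1 : ∀ (K : Type) [Field K] [NumberField K] (Y : Type) [MetricSpace Y] [MeasurableSpace Y] [BorelSpace Y] (p : K → Y),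
      ∃ Z : Set Y, dimH Z = 0 ∧ ∀ z, z ∉ Z → ∀ d : ℕ, 2 ≤ d → ∀ θ D : ℝ, 0 < θ → ∃ N : ℕ, ∀ c : K,
        dist (p c) z ≤ D * (mulHeight₁ c) ^ (-θ) → (preperiodic d c).encard ≤ N := by
    intro K _ _ Y _ _ _ p
    have h : ∀ d : {d : ℕ // 2 ≤ d}, ∃ Z : Set Y, dimH Z = 0 ∧ ∀ z, z ∉ Z → ∀ θ D : ℝ, 0 < θ → ∃ N : ℕ, ∀ c : K,
        dist (p c) z ≤ D * (mulHeight₁ c) ^ (-θ) → (preperiodic d.1 c).encard ≤ N := fun d => one_field p d.1 d.2
    choose Z hZ hz using h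
    refine ⟨⋃ d, Z d, ?_, fun z hzZ d hd θ D hθ => ?_⟩
    · rw [dimH_iUnion]
      simp [hZ]
    · exact hz ⟨d, hd⟩ z (fun hh => hzZ (Set.mem_iUnion.2 ⟨_, hh⟩)) θ D hθ
  refine ⟨h1, ?_⟩
  have hcN := countN
  have h2 : ∀ K : {K : IntermediateField ℚ ℂ // NumberField K}, ∃ Z : Set ℂ, dimH Z = 0 ∧ ∀ z, z ∉ Z → ∀ d : ℕ, 2 ≤ d →
      ∀ θ D : ℝ, 0 < θ → ∃ N : ℕ, ∀ c : K.1, dist (c : ℂ) z ≤ D * ((haveI := K.2; mulHeight₁ c) : ℝ) ^ (-θ) →
        (preperiodic d c).encard ≤ N := fun K => haveI := K.2; h1 K.1 ℂ (fun c => (c : ℂ))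
  choose Z hZ hz using h2
  refine ⟨⋃ K, Z K, ?_, fun z hzZ K hK d hd θ D hθ => ?_⟩
  · rw [dimH_iUnion]
    simp [hZ]
  · obtain ⟨N, hN⟩ := hz ⟨K, hK⟩ z (fun hh => hzZ (Set.mem_iUnion.2 ⟨_, hh⟩)) d hd θ D hθ
    refine ⟨N, fun c hc => hN c ?_⟩
    rw [dist_eq_norm]
    exact hc

end Pool.Agent.Results.MP_c076ed_nt.ParametersNearGivenPoints
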