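import Pool.Agent.Q183.UD.Final

/-!
# Uniform boundedness of recurrent orbits

There are functions `M ≥ 1` and `C` of `(R, d)` which depend only on the dimension `N`, on the number
`s` of morphisms and on the bound `D` for their degrees, such that the following holds for all fields
`K` of characteristic zero and all morphisms `φ 1, ..., φ s` of projective `N`-space over `K` of
degrees between `2` and `D`.

(a) Let `P 0, ..., P (l - 1)` be a finite sequence, of any length `l`, of points of projective
`N`-space over `K` such that each point is the image of the preceding one under one of the morphisms.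
If the points have homogeneous coordinates which satisfy linear recurrences of order at most `R` with
polynomials of degree at most `d` in the index as coefficients, then `P (t + M) = P t` for
`C ≤ t ≤ l - M - C`.

(b) At most `M + 2 C` of these points are different.

(c) If the first `l ≥ M + 2 C` points of the orbit of a point `Q` under one of the morphisms are such
a sequence, then `Q` is preperiodic: `φ ^ (C + M) (Q) = φ ^ C (Q)`, and its orbit has at most `C + M`
points.
-/

set_option autoImplicit false

namespace Pool.Agent.Results.MP_c076ed_nt.RecurrentOrbits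

open MvPolynomial Pool.Agent.Q183.UD Pool.Agent.Q183.UH
open scoped LinearAlgebra.Projectivization

theorem result (N s D : ℕ) : ∃ M C : ℕ → ℕ → ℕ, (∀ R d, 0 < M R d) ∧
    ∀ (K : Type) [Field K] [CharZero K] (f : Fin s → Fin (N + 1) → MvPolynomial (Fin (N + 1)) K)
      (hf : ∀ k, IsMor D (f k)),
      (∀ (R d l : ℕ) (P : ℕ → ℙ K (Fin (N + 1) → K)),
        (∀ t, t + 1 < l → ∃ k, P (t + 1) = pmap (hf k) (P t)) → Recurrent R d l P →
        (∀ t, C R d ≤ t → t + M R d + C R d ≤ l → P (t + M R d) = P t) ∧
        (P '' {t | t < l}).encard ≤ (M R d + 2 * C R d : ℕ)) ∧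
      ∀ (R d l : ℕ) (k : Fin s) (Q : ℙ K (Fin (N + 1) → K)), M R d + 2 * C R d ≤ l →
        Recurrent R d l (fun t => (pmap (hf k))^[t] Q) →
        (pmap (hf k))^[C R d + M R d] Q = (pmap (hf k))^[C R d] Q ∧
        (Set.range fun t => (pmap (hf k))^[t] Q).encard ≤ (C R d + M R d : ℕ) := by
  classical
  obtain ⟨M, C, hM, h⟩ := dyn_points N s D
  refine ⟨M, C, hM, fun K _ _ f hf => ⟨fun R d l P hS hP => ⟨h K f hf R d l P hS hP, ?_⟩,
    fun R d l k Q hl hP => ?_⟩⟩
  · have h4 := fin_points_le (Z := fun _ => False) (hM R d) fun t ht1 ht2 =>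
      Or.inl (h K f hf R d l P hS hP t ht1 ht2)
    simpa using h4
  · have h1 := h K f hf R d l (fun t => (pmap (hf k))^[t] Q) (fun t _ => ⟨k, by
      simp only [Function.iterate_succ_apply']⟩) hP (C R d) le_rfl (by omega)
    refine ⟨h1, ?_⟩
    have h2 : ∀ t, ∃ s < C R d + M R d, (pmap (hf k))^[s] Q = (pmap (hf k))^[t] Q := by
      intro t
      induction t using Nat.strong_induction_on with
      | _ t ih =>
        rcases Nat.lt_or_ge t (C R d + M R d) with h3 | h3
        · exact ⟨t, h3, rfl⟩
        · have hMR := hM R d
          obtain ⟨s, hs, hs'⟩ := ih (t - M R d) (by omega)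
          refine ⟨s, hs, hs'.trans ?_⟩
          have e1 : t - M R d = (t - (C R d + M R d)) + C R d := by omega
          have e2 : t = (t - (C R d + M R d)) + (C R d + M R d) := by omega
          conv_rhs => rw [e2]
          rw [e1, Function.iterate_add_apply, Function.iterate_add_apply _ _ (C R d + M R d), h1]
    have h3 : (Set.range fun t => (pmap (hf k))^[t] Q) ⊆
        (fun t => (pmap (hf k))^[t] Q) '' ((Finset.range (C R d + M R d) : Finset ℕ) : Set ℕ) := by
      rintro _ ⟨t, rfl⟩
      obtain ⟨s, hs, hs'⟩ := h2 t
      exact ⟨s, Finset.mem_coe.2 (Finset.mem_range.2 hs), hs'⟩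
    refine (Set.encard_le_encard h3).trans ((Set.encard_image_le _ _).trans ?_)
    rw [Set.encard_coe_eq_coe_finsetCard, Finset.card_range]

end Pool.Agent.Results.MP_c076ed_nt.RecurrentOrbits
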